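import Pool.Agent.H33.Hr5

set_option autoImplicit false

namespace Pool.Agent.Results.MP_7fb4a2_an.Full

open Pool.Agent.H33.Hr TopologicalSpace

theorem result :
    ∃ (Y : Type) (_ : TopologicalSpace Y) (_ : CompactSpace Y) (_ : MetrizableSpace Y)
      (S : Y ≃ₜ Y) (y0 : Y), (∀ y : Y, ¬ IsOpen ({y} : Set Y)) ∧
      DenseRange (fun n : ℤ => (S ^ n) y0) ∧
      (∀ F : C(Y, ℂ), ∀ ε > (0 : ℝ), ∃ b ∈ BZ, ∀ n : ℤ, ‖F ((S ^ n) y0) - b n‖ ≤ ε) ∧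
      (∀ (Z : Type) [TopologicalSpace Z] [CompactSpace Z] [T2Space Z] (R : Z ≃ₜ Z) (π : Y → Z),
        Factor S R π → HEmb R → Subsingleton Z) ∧
      (∃ F : C(Y, ℂ), ¬ ∃ c, ∀ n : ℤ, F ((S ^ n) y0) = c) ∧
      ∀ F : C(Y, ℂ), (fun n : ℤ => F ((S ^ n) y0)) ∈ BZ → ∃ c, ∀ n : ℤ, F ((S ^ n) y0) = c := by
  have := compact_Y
  have hd : DenseRange fun n : ℤ => (Sh ya ^ n) (b0 ya) := by
    simp only [Sh_zpow]; exact dense_b0 ya
  refine ⟨Cl ya, inferInstance, this, inferInstance, Sh ya, b0 ya, no_iso, hd, hilb0, ?_, ?_,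
    alg_const⟩
  · intro Z _ _ _ R π ⟨p1, p2, p3⟩ h
    obtain ⟨H, _, _, _, U, f, h1, h2, h3⟩ := rep_of_emb h
    have h4 := const U (f ∘ π) (fun y => by simp only [Function.comp, p3, h2])
      fun v => (h3 v).comp p1
    refine ⟨fun a b => ?_⟩
    obtain ⟨a, rfl⟩ := p2 a
    obtain ⟨b, rfl⟩ := p2 b
    exact h1 ((h4 a).trans (h4 b).symm)
  · let F : C(Cl ya, ℂ) := ⟨fun y => (y.1 0 : ℝ), Complex.continuous_ofReal.comp
      ((continuous_apply 0).comp continuous_subtype_val)⟩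
    refine ⟨F, fun ⟨c, hc⟩ => ?_⟩
    have h1 : ∀ y, F y = c := fun y => hd.induction_on (p := fun y => F y = c) y
      (isClosed_eq F.continuous continuous_const) hc
    have h2 : ((y1.1 0 : ℝ) : ℂ) = ((0 : ℝ) : ℂ) := (h1 y1).trans (h1 z0).symm
    rw [y1_zero] at h2
    norm_num at h2

end Pool.Agent.Results.MP_7fb4a2_an.Full
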